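import Pool.Agent.Lib.MP_dec67b.Main

/-!
# The bound `g_d(n) ≥ c n / d` fails

MP_dec67b_co.  `Sep X`: any two distinct points of `X` are at distance at least `1`; `SSep Y`: any
two distinct points of `Y` are at distance greater than `1`; `g d n` is the largest `m` such that
every 1-separated set of `n` points in `ℝ ^ d` contains a subset `Y` with `SSep Y` and at least
`m` points (`Pool/Agent/Lib/MP_dec67b/Main.lean`).

Proof: for `q = 2 ^ (2 j + 1)` there are `2 q ^ 2` equiangular lines in dimension `3 q` (a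
Kerdock-type construction, de Caen), spanned by vectors of equal length with inner products
`r, -r`, `r ^ 2 = 2 q`, where the larger distance belongs to `-r`; a set of vectors with all inner
products `-r` has at most `r + 2` elements. Take far copies of this block.
-/

set_option autoImplicit false

namespace Pool.Agent.Results.MP_dec67b_co.ErdosBoundFails

open Pool.Agent.Lib.MP_dec67b

/-- `g_d(n) ≤ 60 (n / d ^ (3/2) + d ^ (1/2))` for all `d ≥ 1` and `n ≥ 0`; so for no `c > 0` the
bound `g_d(n) ≥ c n / d` holds for all `d ≥ 1` and `n ≥ 0`. -/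
theorem result :
    (∀ d n : ℕ, 1 ≤ d →
      IsGreatest {m : ℕ | ∀ X : Finset (EuclideanSpace ℝ (Fin d)), X.card = n → Sep X →
        ∃ Y ⊆ X, m ≤ Y.card ∧ SSep Y} (g d n) ∧
      (g d n : ℝ) ≤ 60 * (n / (d * √d) + √d)) ∧
    ∀ c : ℝ, 0 < c → ∃ d n : ℕ, 1 ≤ d ∧ (g d n : ℝ) < c * n / d :=
  ⟨fun d n hd => ⟨g_isGreatest d n hd, g_le d n hd⟩, g_lt⟩

end Pool.Agent.Results.MP_dec67b_co.ErdosBoundFails
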